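import Pool.Agent.Helper65.EV.St

/-!
# Module COR of project EV: the criterion when the logarithmic moment at one is finite
-/

set_option autoImplicit false

open MeasureTheory ProbabilityTheory Set Filter
open scoped ENNReal Topology

namespace Pool.Agent.Helper52.EV

open Pool.Agent.Helper65.EV Pool.Agent.Helper84.Eve

private lemma AA_le (Λ : Measure ℝ) (s : ℝ) :
    AA Λ s ≤ ∫⁻ u, ENNReal.ofReal (-Real.log (1 - u)) ∂(nu Λ) :=
  lintegral_mono fun _ => ENNReal.ofReal_le_ofReal (min_le_left _ _)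

private lemma pt_le {u : ℝ} (h1 : 1 / 2 < u) (h2 : u < 1) :
    -(u * Real.log u) ≤ -Real.log (1 - u) := by
  have ha : Real.log (1 / 2) ≤ Real.log u := Real.log_le_log (by norm_num) h1.le
  have hb : Real.log (1 - u) ≤ Real.log (1 / 2) := Real.log_le_log (by linarith) (by linarith)
  have hc : Real.log u ≤ 0 := Real.log_nonpos (by linarith) h2.le
  nlinarith

private lemma split (Λ : Measure ℝ) :
    ∫⁻ u in Ico 0 1, ENNReal.ofReal (-(u * Real.log u)) ∂(nu Λ) ≤
      ∫⁻ u in Ioc 0 (1 / 2), ENNReal.ofReal (u * -Real.log u) ∂(nu Λ) +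
        ∫⁻ u, ENNReal.ofReal (-Real.log (1 - u)) ∂(nu Λ) := by
  rw [← lintegral_indicator measurableSet_Ico, ← lintegral_indicator measurableSet_Ioc,
    ← lintegral_add_left ((by fun_prop : Measurable fun u : ℝ =>
      ENNReal.ofReal (u * -Real.log u)).indicator measurableSet_Ioc)]
  apply lintegral_mono
  intro u
  by_cases hu : u ∈ Ico (0 : ℝ) 1
  · simp only [Set.indicator_of_mem hu]
    rcases eq_or_lt_of_le hu.1 with h0 | h0
    · rw [← h0]; simp
    · rcases le_or_gt u (1 / 2) with h | h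
      · simp only [Set.indicator_of_mem (show u ∈ Ioc (0 : ℝ) (1 / 2) from ⟨h0, h⟩)]
        rw [mul_neg]
        exact le_self_add
      · refine le_trans (ENNReal.ofReal_le_ofReal (pt_le h hu.2)) le_add_self
  · simp only [Set.indicator_of_notMem hu]
    exact bot_le

theorem hCOR : Pool.Agent.Helper65.EV.hCOR := by
  intro Λ _ hc hinf
  have h1 : ∫⁻ u in Ioc 0 (1 / 2), ENNReal.ofReal (u * -Real.log u) ∂(nu Λ) = ∞ := by
    have h := split Λ
    rw [hinf, top_le_iff, ENNReal.add_eq_top] at h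
    exact h.resolve_right hc
  have h2 : (∫⁻ u in Ioc 0 (1 / 2), ENNReal.ofReal (u * -Real.log u) ∂(nu Λ)) *
      (∫⁻ u, ENNReal.ofReal (-Real.log (1 - u)) ∂(nu Λ))⁻¹ ≤ JJ Λ := by
    rw [← lintegral_mul_const _ (by fun_prop : Measurable fun u : ℝ =>
      ENNReal.ofReal (u * -Real.log u))]
    unfold JJ
    apply lintegral_mono
    intro u
    show ENNReal.ofReal (u * -Real.log u) * (∫⁻ u, ENNReal.ofReal (-Real.log (1 - u)) ∂(nu Λ))⁻¹ ≤
      ENNReal.ofReal (u * -Real.log u) / AA Λ (-Real.log u)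
    rw [ENNReal.div_eq_inv_mul, mul_comm]
    gcongr
    exact AA_le Λ _
  rw [h1, ENNReal.top_mul (ENNReal.inv_ne_zero.mpr hc)] at h2
  exact top_le_iff.mp h2

end Pool.Agent.Helper52.EV
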