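import Pool.Agent.Helper65.EV.St

/-!
# Project EV, module WG: growth of the truncated level
-/

set_option autoImplicit false

open MeasureTheory ProbabilityTheory Set Filter
open scoped ENNReal Topology
open Pool.Agent.Helper84.Eve

namespace Pool.Agent.Helper52.EV

open Pool.Agent.Helper65.EV

private lemma tl_nonneg {s : ℝ} (hs : 0 ≤ s) (a : ℕ) : 0 ≤ tl s a := by
  unfold tl
  refine le_min (Real.log_nonneg ?_) hs
  have : (0 : ℝ) ≤ a := Nat.cast_nonneg a
  linarith

private lemma tl_mono {s : ℝ} {a b : ℕ} (h : a ≤ b) : tl s a ≤ tl s b := by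
  unfold tl
  refine min_le_min_right _ (Real.log_le_log (by positivity) ?_)
  have : (a : ℝ) ≤ b := Nat.cast_le.2 h
  linarith

private lemma pos_empty (a : ℕ) : pos ∅ a = a := by
  apply pos_of_cnt_le
  simp [cnt]

theorem hWG (h1 : hUG) (h2 : hWK) : hWG := by
  intro Λ hsupp hone n h s a hh hs hfin
  set P := (Finset.range n).powerset with hP
  set d : Finset ℕ → ℝ := fun κ => tl s (pos κ a) - tl s a with hd
  have hd0 : ∀ κ, 0 ≤ d κ := fun κ => sub_nonneg.2 (tl_mono (le_pos κ a))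
  have hde : d ∅ = 0 := by rw [hd]; simp only [pos_empty, sub_self]
  have hsplit : ∀ κ, ENNReal.ofReal (tl s (pos κ a)) =
      ENNReal.ofReal (tl s a) + ENNReal.ofReal (d κ) := by
    intro κ
    rw [← ENNReal.ofReal_add (tl_nonneg hs a) (hd0 κ)]
    congr 1
    rw [hd]; ring
  -- the integral bound
  have hae : ∀ᵐ u ∂(nu Λ), 0 ≤ u ∧ u < 1 := by
    have e1 : nu Λ {1} = 0 := by rw [nu_singleton, hone, mul_zero]
    have e2 : ∀ᵐ u ∂(nu Λ), u ≠ 1 := by
      rw [ae_iff]
      have : {u : ℝ | ¬ u ≠ 1} = {1} := by ext u; simp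
      rw [this]; exact e1
    filter_upwards [nu_supp hsupp, e2] with u hu hu1
    exact ⟨hu.1, lt_of_le_of_ne hu.2 hu1⟩
  have hint : ∑ κ ∈ P, wS Λ n {κ} * ENNReal.ofReal (d κ) ≤ AA Λ s := by
    have e1 : ∀ κ ∈ P, wS Λ n {κ} * ENNReal.ofReal (d κ) =
        ∫⁻ u, ENNReal.ofReal u ^ κ.card * ENNReal.ofReal (1 - u) ^ (n - κ.card) *
          ENNReal.ofReal (d κ) ∂(nu Λ) := by
      intro κ hκ
      rw [h2 Λ hsupp n κ hκ, lintegral_mul_const _ (by fun_prop)]
    rw [Finset.sum_congr rfl e1, ← lintegral_finsetSum _ (fun κ _ => by fun_prop)]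
    unfold AA
    refine lintegral_mono_ae ?_
    filter_upwards [hae] with u hu
    have hu0 : 0 ≤ u := hu.1
    have hu1 : 0 ≤ 1 - u := by linarith [hu.2]
    have e2 : ∀ κ ∈ P, ENNReal.ofReal u ^ κ.card * ENNReal.ofReal (1 - u) ^ (n - κ.card) *
        ENNReal.ofReal (d κ) =
        ENNReal.ofReal (u ^ κ.card * (1 - u) ^ (n - κ.card) * d κ) := by
      intro κ _
      rw [ENNReal.ofReal_mul (by positivity), ENNReal.ofReal_mul (by positivity),
        ENNReal.ofReal_pow hu0, ENNReal.ofReal_pow hu1]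
    rw [Finset.sum_congr rfl e2, ← ENNReal.ofReal_sum_of_nonneg
      (fun κ _ => mul_nonneg (by positivity) (hd0 κ))]
    refine ENNReal.ofReal_le_ofReal ?_
    have e3 : ∑ κ ∈ P, u ^ κ.card * (1 - u) ^ (n - κ.card) = 1 := by
      have := Finset.sum_pow_mul_eq_add_pow u (1 - u) (Finset.range n)
      rw [Finset.card_range] at this
      rw [hP, this]; simp
    have e4 : ∑ κ ∈ P, u ^ κ.card * (1 - u) ^ (n - κ.card) * d κ =
        ∑ κ ∈ P, u ^ κ.card * (1 - u) ^ (n - κ.card) * tl s (pos κ a) - tl s a := by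
      have : ∀ κ ∈ P, u ^ κ.card * (1 - u) ^ (n - κ.card) * d κ =
          u ^ κ.card * (1 - u) ^ (n - κ.card) * tl s (pos κ a) -
            u ^ κ.card * (1 - u) ^ (n - κ.card) * tl s a := by
        intro κ _; rw [hd]; ring
      rw [Finset.sum_congr rfl this, Finset.sum_sub_distrib, ← Finset.sum_mul, e3, one_mul]
    rw [e4]
    have := h1 u hu0 hu.2 s hs n a
    linarith
  -- assembly
  calc ∑ κ ∈ P, wt Λ n h κ * ENNReal.ofReal (tl s (pos κ a))
      = (∑ κ ∈ P, wt Λ n h κ) * ENNReal.ofReal (tl s a) +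
          ∑ κ ∈ P, wt Λ n h κ * ENNReal.ofReal (d κ) := by
        rw [Finset.sum_mul, ← Finset.sum_add_distrib]
        refine Finset.sum_congr rfl fun κ _ => ?_
        rw [hsplit κ, mul_add]
    _ ≤ 1 * ENNReal.ofReal (tl s a) + ENNReal.ofReal h * AA Λ s := by
        refine add_le_add (mul_le_mul_left (sum_wt_le_one n hh hfin) _) ?_
        refine le_trans ?_ (mul_le_mul_right hint _)
        rw [Finset.mul_sum]
        refine Finset.sum_le_sum fun κ _ => ?_
        by_cases hκ : κ = ∅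
        · subst hκ; rw [hde]; simp
        · rw [← mul_assoc]
          exact mul_le_mul_left (wt_le hh hκ) _
    _ = _ := by rw [one_mul]

end Pool.Agent.Helper52.EV
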